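import Pool.Agent.H470R3.WI

set_option autoImplicit false

namespace Pool.Agent.Results.MP_155122_nt.NotTwoClasses

open Pool.Agent.H470R3.WI

/-- Some weakly independent sequence of positive integers is not a union of two strongly
independent sequences. -/
theorem result : ∃ a : ℕ → ℕ, (∀ i, 0 < a i) ∧ Weak a ∧ ¬ Splits a 2 := by
  obtain ⟨A, hA, hAw, hs⟩ := glue (fun _ => 5) (fun _ => by norm_num) (fun _ => ex5)
    (fun _ => by decide) (fun _ => ex5_weak)
  exact ⟨A, hA, hAw, fun h => ex5_not (hs 0 2 h)⟩

end Pool.Agent.Results.MP_155122_nt.NotTwoClasses
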