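import Pool.Agent.H470R3.WI

set_option autoImplicit false

namespace Pool.Agent.Results.MP_155122_nt.UniformBound

open Pool.Agent.H470R3.WI

/-- The question has a positive answer if and only if a uniform number of classes suffices for all
finite weakly independent sequences, and the same numbers of classes work for finite and for
infinite sequences. -/
theorem result :
    (Question ↔ ∃ k, FiniteBound k) ∧ (∀ k, SequenceBound k ↔ FiniteBound k) := by
  refine ⟨⟨finite_of_question, ?_⟩, fun k => ⟨finite_of_sequence k, sequence_of_finite k⟩⟩
  rintro ⟨k, hk⟩ a ha hw
  exact ⟨k, sequence_of_finite k hk a ha hw⟩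

end Pool.Agent.Results.MP_155122_nt.UniformBound
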